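import Pool.Agent.W593.ZT.Stm

open scoped Classical

set_option autoImplicit false

namespace Pool.Agent.W971.ZT

open Pool.Agent.W593.ZT

theorem comp' {V G : Type} [AddCommGroup G] (S0 S1 S2 : AddSubgroup G)
    (Z1 Z2 : Finset V) (A1 A2 : V → Finset G) (hd : Disjoint Z1 Z2)
    (h1 : Cov S0 S1 Z1 A1) (h2 : Cov S1 S2 Z2 A2) :
    Cov S0 S2 (Z1 ∪ Z2) (fun z => if z ∈ Z1 then A1 z else A2 z) := by
  intro r0 hr0 s hs
  have hZ2 : ∀ z ∈ Z2, z ∉ Z1 := fun z hz hz1 => Finset.disjoint_left.1 hd hz1 hz
  have hr1 : ∀ z ∈ Z1, r0 z ∈ A1 z := by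
    intro z hz
    have := hr0 z (Finset.mem_union_left _ hz)
    simpa [hz] using this
  have hr2 : ∀ z ∈ Z2, r0 z ∈ A2 z := by
    intro z hz
    have := hr0 z (Finset.mem_union_right _ hz)
    simpa [hZ2 z hz] using this
  rw [Finset.sum_union hd] at hs
  obtain ⟨r2, ⟨r2', hr2', rfl⟩, h2'⟩ := h2 r0 hr2 (s - ∑ z ∈ Z1, r0 z) (by
    have : s - ∑ z ∈ Z1, r0 z - ∑ z ∈ Z2, r0 z = s - (∑ z ∈ Z1, r0 z + ∑ z ∈ Z2, r0 z) := by abel
    rw [this]; exact hs)
  obtain ⟨r1, ⟨r1', hr1', rfl⟩, h1'⟩ := h1 r0 hr1 (s - ∑ z ∈ Z2, r2' z) (by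
    have : s - ∑ z ∈ Z2, r2' z - ∑ z ∈ Z1, r0 z = s - ∑ z ∈ Z1, r0 z - ∑ z ∈ Z2, r2' z := by abel
    rw [this]; exact h2')
  refine ⟨_, ⟨fun z => if z ∈ Z1 then r1' z else r2' z, ?_, rfl⟩, ?_⟩
  · intro z hz
    by_cases h : z ∈ Z1
    · simpa [h] using hr1' z h
    · have : z ∈ Z2 := (Finset.mem_union.1 hz).resolve_left h
      simpa [h] using hr2' z this
  · rw [Finset.sum_union hd]
    have e1 : ∑ z ∈ Z1, (if z ∈ Z1 then r1' z else r2' z) = ∑ z ∈ Z1, r1' z :=
      Finset.sum_congr rfl (fun z hz => by simp [hz])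
    have e2 : ∑ z ∈ Z2, (if z ∈ Z1 then r1' z else r2' z) = ∑ z ∈ Z2, r2' z :=
      Finset.sum_congr rfl (fun z hz => by simp [hZ2 z hz])
    rw [e1, e2]
    have : s - (∑ z ∈ Z1, r1' z + ∑ z ∈ Z2, r2' z) =
        s - ∑ z ∈ Z2, r2' z - ∑ z ∈ Z1, r1' z := by abel
    rw [this]; exact h1'

/-- the number of classes met by a pair -/
theorem ncl_pair {G : Type} [AddCommGroup G] (R : AddSubgroup G) (t s : G) :
    ncl R {t, s} - 1 = if s - t ∉ R then 1 else 0 := by
  unfold ncl
  rw [Finset.image_insert, Finset.image_singleton]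
  by_cases h : s - t ∈ R
  · have : (QuotientAddGroup.mk t : G ⧸ R) = QuotientAddGroup.mk s := by
      rw [QuotientAddGroup.eq]
      have : -t + s = s - t := by abel
      rw [this]; exact h
    rw [this]; simp [h]
  · have : (QuotientAddGroup.mk t : G ⧸ R) ≠ QuotientAddGroup.mk s := by
      rw [Ne, QuotientAddGroup.eq]
      have : -t + s = s - t := by abel
      rw [this]; exact h
    rw [Finset.card_pair this]; simp [h]

theorem sum_ncl {V G : Type} [AddCommGroup G] (R : AddSubgroup G) (D : Finset V) (t s : V → G) :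
    ∑ z ∈ D, (ncl R {t z, s z} - 1) = (D.filter (fun y => s y - t y ∉ R)).card := by
  rw [Finset.card_filter]
  exact Finset.sum_congr rfl (fun z _ => ncl_pair R (t z) (s z))

theorem nslAux (hK2 : S_K2) (hTREE2 : S_TREE2) (V G : Type) [Fintype V] [AddCommGroup G]
    [Fintype G] (c : V → V → G) (hc : Ctx c) (a : G) (n : ℕ) :
    ∀ (T : AddSubgroup G) (H Z : Finset V) (A : V → Finset G) (r0 : V → G), T.index = n →
    T ≠ ⊤ → H.Nonempty → Disjoint H Z → (∀ z ∈ Z, A z ⊆ Cs c H z) → Cov ⊥ T Z A →
    (∀ z ∈ Z, r0 z ∈ A z) → ∑ z ∈ Z, r0 z - Z.card • a ∈ T →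
    ((Finset.univ \ (H ∪ Z)).filter (fun y => ∃ h ∈ H, c y h - a ∈ T)).card + 2 ≤ T.index := by
  induction n using Nat.strong_induction_on with
  | _ n ih =>
  intro T H Z A r0 hn hT hH hHZ hA hCov hr0 hsum
  by_contra hcon
  set D := (Finset.univ \ (H ∪ Z)).filter (fun y => ∃ h ∈ H, c y h - a ∈ T) with hD
  have hDcard : T.index ≤ D.card + 1 := by omega
  have hDmem : ∀ y, y ∈ D ↔ (y ∉ H ∧ y ∉ Z) ∧ ∃ h ∈ H, c y h - a ∈ T := by
    intro y; simp [hD]
  -- the vertices outside H ∪ Z ∪ D
  set F := (Finset.univ \ (H ∪ Z)) \ D with hF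
  have hFmem : ∀ y, y ∈ F ↔ (y ∉ H ∧ y ∉ Z) ∧ y ∉ D := by
    intro y; simp [hF]
  have hma : Fintype.card G • a = 0 := card_nsmul_eq_zero
  by_cases hA' : ∃ w ∈ D, ∀ h ∈ H ∪ F, c w h - a ∈ T
  · -- CASE A
    obtain ⟨w, hwD, hw⟩ := hA'
    have hwm := (hDmem w).1 hwD
    -- attachments of D
    have hatt : ∀ y, ∃ h, y ∈ D → h ∈ H ∧ c y h - a ∈ T := by
      intro y
      by_cases hy : y ∈ D
      · obtain ⟨h, hh, hh'⟩ := ((hDmem y).1 hy).2
        exact ⟨h, fun _ => ⟨hh, hh'⟩⟩
      · exact ⟨y, fun h => absurd h hy⟩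
    choose q hq using hatt
    -- the fixed sum
    set Fx : G := ∑ v ∈ (H ∪ F), c v w + ∑ y ∈ D.erase w, c y (q y) with hFx
    have hcardV : (H ∪ F).card + (D.erase w).card + Z.card = Fintype.card G := by
      have h1 : (H ∪ F).card = H.card + F.card := by
        apply Finset.card_union_of_disjoint
        rw [Finset.disjoint_left]; intro x hx hxF
        exact ((hFmem x).1 hxF).1.1 hx
      have h2 : F.card + D.card = (Finset.univ \ (H ∪ Z)).card := by
        rw [hF]; exact Finset.card_sdiff_add_card_eq_card (Finset.filter_subset _ _)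
      have h3 : (Finset.univ \ (H ∪ Z)).card + (H ∪ Z).card = Fintype.card V := by
        rw [Finset.card_sdiff_add_card_eq_card (Finset.subset_univ _)]; rfl
      have h4 : (H ∪ Z).card = H.card + Z.card := Finset.card_union_of_disjoint hHZ
      have h5 : (D.erase w).card + 1 = D.card := Finset.card_erase_add_one hwD
      have h6 := hc.card
      omega
    have hFxT : Fx - ((H ∪ F).card + (D.erase w).card) • a ∈ T := by
      have e : Fx - ((H ∪ F).card + (D.erase w).card) • a =
          ∑ v ∈ (H ∪ F), (c v w - a) + ∑ y ∈ D.erase w, (c y (q y) - a) := by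
        rw [Finset.sum_sub_distrib, Finset.sum_sub_distrib, Finset.sum_const, Finset.sum_const,
          add_smul, hFx]
        abel
      rw [e]
      apply T.add_mem
      · apply T.sum_mem; intro v hv
        rw [hc.sym]; exact hw v hv
      · apply T.sum_mem; intro y hy
        exact (hq y (Finset.mem_of_mem_erase hy)).2
    obtain ⟨r, ⟨r', hr', rfl⟩, hr⟩ := hCov r0 hr0 (-Fx) (by
      have e : -Fx - ∑ z ∈ Z, r0 z = -((Fx - ((H ∪ F).card + (D.erase w).card) • a) +
          (∑ z ∈ Z, r0 z - Z.card • a)) - Fintype.card G • a := by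
        rw [← hcardV, add_smul, add_smul, add_smul]; abel
      rw [e, hma, sub_zero]
      exact T.neg_mem (T.add_mem hFxT hsum))
    rw [AddSubgroup.mem_bot] at hr
    -- the tree
    have hZatt : ∀ z, ∃ h, z ∈ Z → h ∈ H ∧ c z h = r' z := by
      intro z
      by_cases hz : z ∈ Z
      · have := hA z hz (hr' z hz)
        unfold Cs at this
        rw [Finset.mem_image] at this
        obtain ⟨h, hh, hh'⟩ := this
        exact ⟨h, fun _ => ⟨hh, hh'⟩⟩
      · exact ⟨z, fun h => absurd h hz⟩
    choose qz hqz using hZatt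
    apply hc.not
    refine ⟨w, fun v => if v ∈ Z then qz v else if v ∈ D then q v else w, ?_, ?_⟩
    · intro v hv
      by_cases hvZ : v ∈ Z
      · have h1 := (hqz v hvZ).1
        have h2 : qz v ∉ Z := fun h => Finset.disjoint_left.1 hHZ h1 h
        have h3 : qz v ∉ D := fun h => ((hDmem _).1 h).1.1 h1
        simp only [hvZ, if_true, h2, h3, if_false]
        refine ⟨?_, Or.inr trivial⟩
        intro h; rw [h] at h1; exact Finset.disjoint_left.1 hHZ h1 hvZ
      · by_cases hvD : v ∈ D
        · have h1 := (hq v hvD).1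
          have h2 : q v ∉ Z := fun h => Finset.disjoint_left.1 hHZ h1 h
          have h3 : q v ∉ D := fun h => ((hDmem _).1 h).1.1 h1
          simp only [hvZ, hvD, if_true, h2, h3, if_false]
          refine ⟨?_, Or.inr trivial⟩
          intro h; rw [h] at h1; exact ((hDmem _).1 hvD).1.1 h1
        · simp only [hvZ, hvD, if_false]
          exact ⟨fun h => hv h.symm, Or.inl trivial⟩
    · have hun : Finset.univ.erase w = ((H ∪ F) ∪ D.erase w) ∪ Z := by
        ext v
        simp only [Finset.mem_erase, Finset.mem_univ, and_true, Finset.mem_union, hFmem]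
        by_cases hvw : v = w
        · subst hvw; simp [hwm.1.1, hwm.1.2, hwD]
        · by_cases h1 : v ∈ H <;> by_cases h2 : v ∈ Z <;> by_cases h3 : v ∈ D <;>
            simp [h1, h2, h3, hvw]
      have hd1 : Disjoint ((H ∪ F) ∪ D.erase w) Z := by
        rw [Finset.disjoint_left]; intro v hv hvZ
        rw [Finset.mem_union, Finset.mem_union] at hv
        rcases hv with (h | h) | h
        · exact Finset.disjoint_left.1 hHZ h hvZ
        · exact ((hFmem v).1 h).1.2 hvZ
        · exact ((hDmem v).1 (Finset.mem_of_mem_erase h)).1.2 hvZ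
      have hd2 : Disjoint (H ∪ F) (D.erase w) := by
        rw [Finset.disjoint_left]; intro v hv hvD
        rw [Finset.mem_union] at hv
        rcases hv with h | h
        · exact ((hDmem v).1 (Finset.mem_of_mem_erase hvD)).1.1 h
        · exact ((hFmem v).1 h).2 (Finset.mem_of_mem_erase hvD)
      rw [hun, Finset.sum_union hd1, Finset.sum_union hd2]
      have e1 : ∑ v ∈ H ∪ F, c v (if v ∈ Z then qz v else if v ∈ D then q v else w) =
          ∑ v ∈ H ∪ F, c v w := by
        apply Finset.sum_congr rfl
        intro v hv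
        have h2 : v ∉ Z := by
          rw [Finset.mem_union] at hv
          rcases hv with h | h
          · exact fun hz => Finset.disjoint_left.1 hHZ h hz
          · exact ((hFmem v).1 h).1.2
        have h3 : v ∉ D := by
          rw [Finset.mem_union] at hv
          rcases hv with h | h
          · exact fun hz => ((hDmem v).1 hz).1.1 h
          · exact ((hFmem v).1 h).2
        simp [h2, h3]
      have e2 : ∑ v ∈ D.erase w, c v (if v ∈ Z then qz v else if v ∈ D then q v else w) =
          ∑ y ∈ D.erase w, c y (q y) := by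
        apply Finset.sum_congr rfl
        intro v hv
        have hv' := Finset.mem_of_mem_erase hv
        simp [((hDmem v).1 hv').1.2, hv']
      have e3 : ∑ v ∈ Z, c v (if v ∈ Z then qz v else if v ∈ D then q v else w) =
          ∑ z ∈ Z, r' z := by
        apply Finset.sum_congr rfl
        intro v hv
        simp [hv, (hqz v hv).2]
      rw [e1, e2, e3, ← hFx]
      have : Fx + ∑ z ∈ Z, r' z = -(-Fx - ∑ z ∈ Z, r' z) := by abel
      rw [this, hr, neg_zero]
  · -- CASE B
    have hchoice : ∀ y, ∃ t s : G, y ∈ D → (∃ h ∈ H, c y h = t) ∧ t - a ∈ T ∧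
        (∃ h ∈ H ∪ F, c y h = s) ∧ s - a ∉ T := by
      intro y
      by_cases hy : y ∈ D
      · obtain ⟨h, hh, hh'⟩ := ((hDmem y).1 hy).2
        have : ∃ h ∈ H ∪ F, c y h - a ∉ T := by
          by_contra hc'
          apply hA'
          exact ⟨y, hy, fun h hh => by
            by_contra h2
            exact hc' ⟨h, hh, h2⟩⟩
        obtain ⟨h2, hh2, hh2'⟩ := this
        exact ⟨c y h, c y h2, fun _ => ⟨⟨h, hh, rfl⟩, hh', ⟨h2, hh2, rfl⟩, hh2'⟩⟩
      · exact ⟨0, 0, fun h => absurd h hy⟩
    choose t s hts using hchoice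
    have hst : ∀ y ∈ D, s y - t y ∉ T := by
      intro y hy h
      obtain ⟨-, h1, -, h2⟩ := hts y hy
      apply h2
      have : s y - a = (s y - t y) + (t y - a) := by abel
      rw [this]; exact T.add_mem h h1
    set B : V → Finset G := fun y => {t y, s y} with hB
    have hBsub : ∀ y ∈ D, B y ⊆ Cs c (H ∪ F) y := by
      intro y hy x hx
      obtain ⟨⟨h, hh, e⟩, -, ⟨h', hh', e'⟩, -⟩ := hts y hy
      rw [hB] at hx
      simp only [Finset.mem_insert, Finset.mem_singleton] at hx
      unfold Cs
      rw [Finset.mem_image]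
      rcases hx with hx | hx
      · exact ⟨h, Finset.mem_union_left _ hh, by rw [e, hx]⟩
      · exact ⟨h', hh', by rw [e', hx]⟩
    have hAsub : ∀ z ∈ Z, A z ⊆ Cs c (H ∪ F) z := by
      intro z hz
      refine (hA z hz).trans ?_
      unfold Cs
      exact Finset.image_subset_image Finset.subset_union_left
    have hdZD : Disjoint Z D := by
      rw [Finset.disjoint_left]; intro v hv hvD
      exact ((hDmem v).1 hvD).1.2 hv
    have hdHFZ : Disjoint (H ∪ F) Z := by
      rw [Finset.disjoint_left]; intro v hv hvZ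
      rw [Finset.mem_union] at hv
      rcases hv with h | h
      · exact Finset.disjoint_left.1 hHZ h hvZ
      · exact ((hFmem v).1 h).1.2 hvZ
    have hdHFD : Disjoint (H ∪ F) D := by
      rw [Finset.disjoint_left]; intro v hv hvD
      rw [Finset.mem_union] at hv
      rcases hv with h | h
      · exact ((hDmem v).1 hvD).1.1 h
      · exact ((hFmem v).1 h).2 hvD
    by_cases hgood : ∀ R : AddSubgroup G, T ≤ R → R ≠ ⊤ →
        R.index ≤ 1 + (D.filter (fun y => s y - t y ∉ R)).card
    · obtain ⟨Z', hZ'D, -, hCov'⟩ := hK2 V G T ⊤ le_top D B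
        (fun z _ => ⟨⟨t z, by simp [hB]⟩, fun x _ y _ => AddSubgroup.mem_top _⟩) (by
          intro R hTR hR
          rw [AddSubgroup.relIndex_top_right]
          rw [hB, sum_ncl]
          exact hgood R hTR hR.ne)
      have hdZZ' : Disjoint Z Z' := Finset.disjoint_of_subset_right hZ'D hdZD
      have hfull := comp' ⊥ T ⊤ Z Z' A B hdZZ' hCov hCov'
      apply hc.not
      refine hTREE2 V G c hc.sym (H ∪ F) (Z ∪ Z') _ ?_ ?_ ?_ hfull
      · exact hH.mono Finset.subset_union_left
      · intro v hv
        rw [Finset.mem_sdiff]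
        refine ⟨Finset.mem_univ _, fun h => ?_⟩
        rw [Finset.mem_union] at hv
        rcases hv with h' | h'
        · exact Finset.disjoint_left.1 hdHFZ h h'
        · exact Finset.disjoint_left.1 hdHFD h (hZ'D h')
      · intro z hz
        by_cases hzZ : z ∈ Z
        · simp only [hzZ, if_true]
          exact ⟨⟨r0 z, hr0 z hzZ⟩, hAsub z hzZ⟩
        · have hzD : z ∈ D := hZ'D ((Finset.mem_union.1 hz).resolve_left hzZ)
          simp only [hzZ, if_false]
          exact ⟨⟨t z, by simp [hB]⟩, hBsub z hzD⟩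
    · -- minimal bad subgroup
      set bad : Set (AddSubgroup G) := {R | T ≤ R ∧ R ≠ ⊤ ∧
        (D.filter (fun y => s y - t y ∉ R)).card + 2 ≤ R.index} with hbad
      have hbadne : bad.Nonempty := by
        by_contra h
        rw [Set.not_nonempty_iff_eq_empty] at h
        apply hgood
        intro R hTR hR
        by_contra h'
        have : R ∈ bad := ⟨hTR, hR, by omega⟩
        rw [h] at this; exact this
      obtain ⟨T1, hT1min⟩ := (Set.toFinite bad).exists_minimal hbadne
      have hT1 := hT1min.prop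
      have hminT1 : ∀ R, T ≤ R → R < T1 →
          R.index ≤ 1 + (D.filter (fun y => s y - t y ∉ R)).card := by
        intro R hTR hRT
        by_contra h'
        have hRb : R ∈ bad := ⟨hTR, fun h => by rw [h] at hRT; exact not_top_lt hRT, by omega⟩
        exact absurd (hT1min.le_of_le hRb hRT.le) (not_le_of_gt hRT)
      obtain ⟨hTT1, hT1top, hT1card⟩ := hT1
      have hTne : T ≠ T1 := by
        intro h
        have : D.filter (fun y => s y - t y ∉ T1) = D := by
          rw [Finset.filter_eq_self]; intro y hy; rw [← h]; exact hst y hy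
        rw [this, ← h] at hT1card
        omega
      have hTlt : T < T1 := lt_of_le_of_ne hTT1 hTne
      set D1 := D.filter (fun y => s y - t y ∈ T1) with hD1
      have hsplit : ∀ R : AddSubgroup G, R ≤ T1 →
          (D.filter (fun y => s y - t y ∉ R)).card =
          (D1.filter (fun y => s y - t y ∉ R)).card +
            (D.filter (fun y => s y - t y ∉ T1)).card := by
        intro R hR
        rw [← Finset.card_union_of_disjoint]
        · congr 1
          ext y
          simp only [Finset.mem_filter, Finset.mem_union, hD1]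
          constructor
          · rintro ⟨h1, h2⟩
            by_cases h3 : s y - t y ∈ T1
            · exact Or.inl ⟨⟨h1, h3⟩, h2⟩
            · exact Or.inr ⟨h1, h3⟩
          · rintro (⟨⟨h1, h3⟩, h2⟩ | ⟨h1, h3⟩)
            · exact ⟨h1, h2⟩
            · exact ⟨h1, fun h => h3 (hR h)⟩
        · rw [Finset.disjoint_left]
          intro y hy hy'
          simp only [Finset.mem_filter, hD1] at hy hy'
          exact hy'.2 hy.1.2
      have hi1 : 1 ≤ T1.index := Nat.one_le_iff_ne_zero.2 T1.index_ne_zero_of_finite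
      obtain ⟨Ds, hDs, hDscard, hCovs⟩ := hK2 V G T T1 hTT1 D1 B
        (fun z hz => ⟨⟨t z, by simp [hB]⟩, by
          have hz' : s z - t z ∈ T1 := (Finset.mem_filter.1 hz).2
          intro x hx y hy
          simp only [hB, Finset.mem_insert, Finset.mem_singleton] at hx hy
          rcases hx with rfl | rfl <;> rcases hy with rfl | rfl
          · simp [T1.zero_mem]
          · have : t z - s z = -(s z - t z) := by abel
            rw [this]; exact T1.neg_mem hz'
          · exact hz'
          · simp [T1.zero_mem]⟩) (by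
          intro R hTR hR
          rw [hB, sum_ncl]
          have h1 := hminT1 R hTR hR
          have h2 := hsplit R hR.le
          have h3 : R.relIndex T1 * T1.index = R.index := AddSubgroup.relIndex_mul_index hR.le
          have h4 : 1 ≤ R.relIndex T1 := by
            by_contra h
            have h0 : R.relIndex T1 = 0 := by omega
            rw [h0, zero_mul] at h3
            exact R.index_ne_zero_of_finite h3.symm
          have h5 : R.relIndex T1 + T1.index ≤ R.index + 1 := by
            rw [← h3]
            obtain ⟨x, hx⟩ := Nat.exists_eq_add_of_le h4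
            obtain ⟨y, hy⟩ := Nat.exists_eq_add_of_le hi1
            rw [hx, hy]; ring_nf; nlinarith
          omega)
      have hDsD : Ds ⊆ D := hDs.trans (Finset.filter_subset _ _)
      have hdZDs : Disjoint Z Ds := Finset.disjoint_of_subset_right hDsD hdZD
      have hCov1 := comp' ⊥ T T1 Z Ds A B hdZDs hCov hCovs
      have hidx : T.relIndex T1 * T1.index = T.index := AddSubgroup.relIndex_mul_index hTT1
      have hidxlt : T1.index < n := by
        rw [← hn]
        rw [← hidx]
        have h2 : T.relIndex T1 ≠ 1 := by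
          rw [Ne, AddSubgroup.relIndex_eq_one]
          exact not_le_of_gt hTlt
        have h3 : T.relIndex T1 ≠ 0 := by
          intro h0
          rw [h0, zero_mul] at hidx
          exact T.index_ne_zero_of_finite hidx.symm
        have h4 : 2 ≤ T.relIndex T1 := by omega
        nlinarith
      have key := ih T1.index hidxlt T1 (H ∪ F) (Z ∪ Ds)
        (fun z => if z ∈ Z then A z else B z) (fun z => if z ∈ Z then r0 z else t z) rfl hT1top
        (hH.mono Finset.subset_union_left) (by
          rw [Finset.disjoint_union_right]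
          exact ⟨hdHFZ, Finset.disjoint_of_subset_right hDsD hdHFD⟩) (by
          intro z hz
          by_cases hzZ : z ∈ Z
          · simp only [hzZ, if_true]; exact hAsub z hzZ
          · have hzD : z ∈ D := hDsD ((Finset.mem_union.1 hz).resolve_left hzZ)
            simp only [hzZ, if_false]; exact hBsub z hzD) hCov1 (by
          intro z hz
          by_cases hzZ : z ∈ Z
          · simp only [hzZ, if_true]; exact hr0 z hzZ
          · simp only [hzZ, if_false]; simp [hB]) (by
          rw [Finset.sum_union hdZDs, Finset.card_union_of_disjoint hdZDs, add_smul]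
          have e1 : ∑ z ∈ Z, (if z ∈ Z then r0 z else t z) = ∑ z ∈ Z, r0 z :=
            Finset.sum_congr rfl (fun z hz => by simp [hz])
          have e2 : ∑ z ∈ Ds, (if z ∈ Z then r0 z else t z) = ∑ z ∈ Ds, t z :=
            Finset.sum_congr rfl (fun z hz => by
              have : z ∉ Z := fun h => Finset.disjoint_left.1 hdZDs h hz
              simp [this])
          rw [e1, e2]
          have e3 : ∑ z ∈ Z, r0 z + ∑ z ∈ Ds, t z - (Z.card • a + Ds.card • a) =
              (∑ z ∈ Z, r0 z - Z.card • a) + ∑ z ∈ Ds, (t z - a) := by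
            rw [Finset.sum_sub_distrib, Finset.sum_const]; abel
          rw [e3]
          apply T1.add_mem (hTT1 hsum)
          apply T1.sum_mem
          intro z hz
          exact hTT1 (hts z (hDsD hz)).2.1)
      have hsub : D \ Ds ⊆ (Finset.univ \ ((H ∪ F) ∪ (Z ∪ Ds))).filter
          (fun y => ∃ h ∈ H ∪ F, c y h - a ∈ T1) := by
        intro y hy
        rw [Finset.mem_sdiff] at hy
        have hyD := hy.1
        rw [Finset.mem_filter, Finset.mem_sdiff]
        refine ⟨⟨Finset.mem_univ _, ?_⟩, ?_⟩
        · intro h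
          rw [Finset.mem_union, Finset.mem_union (s := Z)] at h
          rcases h with h | h | h
          · exact Finset.disjoint_left.1 hdHFD h hyD
          · exact Finset.disjoint_left.1 hdZD h hyD
          · exact hy.2 h
        · obtain ⟨h, hh, hh'⟩ := ((hDmem y).1 hyD).2
          exact ⟨h, Finset.mem_union_left _ hh, hTT1 hh'⟩
      have hle := Finset.card_le_card hsub
      have hsd : (D \ Ds).card + Ds.card = D.card := Finset.card_sdiff_add_card_eq_card hDsD
      have h7 : T.relIndex T1 + T1.index ≤ T.index + 1 := by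
        rw [← hidx]
        have h4 : 1 ≤ T.relIndex T1 := by omega
        obtain ⟨x, hx⟩ := Nat.exists_eq_add_of_le h4
        obtain ⟨y, hy⟩ := Nat.exists_eq_add_of_le hi1
        rw [hx, hy]; ring_nf; nlinarith
      omega

theorem nsl (hK2 : S_K2) (hTREE2 : S_TREE2) : S_NSL := by
  intro V G _ _ _ c hc T a H Z A r0 hT hH hHZ hA hCov hr0 hsum
  exact nslAux hK2 hTREE2 V G c hc a T.index T H Z A r0 rfl hT hH hHZ hA hCov hr0 hsum

end Pool.Agent.W971.ZT
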